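import Pool.Graph.R_seed8.Helper27.Har.P_main_thm

set_option autoImplicit false

open MeasureTheory Set Real Filter Topology
open scoped ENNReal NNReal

namespace Pool.Agent.H74.HAR

open Haraux

/-- Times at which a continuous function takes uniformly separated values tend to infinity. -/
theorem tendsto_of_sep {E : Type*} [NormedAddCommGroup E] {Z : ℝ → E} (hZ : Continuous Z)
    {s : ℕ → ℝ} (hs : ∀ k, 0 ≤ s k) (hsep : ∀ j k, j ≠ k → 1 ≤ ‖Z (s j) - Z (s k)‖) :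
    Tendsto s atTop atTop := by
  rw [tendsto_atTop]
  intro B
  by_contra hcon
  rw [not_eventually] at hcon
  obtain ⟨φ, hφ, hφB⟩ := extraction_of_frequently_atTop hcon
  have hmem : ∀ k, s (φ k) ∈ Icc 0 B := fun k => ⟨hs _, (not_le.1 (hφB k)).le⟩
  obtain ⟨x, -, ψ, hψ, hlim⟩ := isCompact_Icc.tendsto_subseq hmem
  have h1 : Tendsto (fun k => Z (s (φ (ψ k)))) atTop (𝓝 (Z x)) := (hZ.tendsto x).comp hlim
  have hcau := h1.cauchySeq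
  rw [Metric.cauchySeq_iff] at hcau
  obtain ⟨N, hN⟩ := hcau 1 one_pos
  have hd := hN N le_rfl (N + 1) (Nat.le_succ N)
  have hne : φ (ψ N) ≠ φ (ψ (N + 1)) := (hφ (hψ (Nat.lt_succ_self N))).ne
  have h2 := hsep _ _ hne
  rw [dist_eq_norm] at hd
  linarith

/-- The strong form of the counterexample. -/
theorem strong : ∃ f : ℝ → L2 sq, Continuous f ∧ (∀ t, f (t + 2 * π) = f t) ∧
    (∃ P : ℝ → L2 sq × L2 sq × L2 sq × L2 sq, IsSolution sq clip f P ∧ Continuous P ∧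
      ∀ t, P (t + 2 * π) = P t) ∧
    ∃ U : ℝ → L2 sq × L2 sq × L2 sq × L2 sq, IsSolution sq clip f U ∧
      (∃ C : ℝ, ∀ t : ℝ, 0 ≤ t → ‖U t‖ ≤ C) ∧
      (∃ s : ℕ → ℝ, (∀ k, 0 ≤ s k) ∧ Tendsto s atTop atTop ∧ ∀ j k, j ≠ k →
        1 ≤ ‖(U (s j)).2.1 - (U (s k)).2.1‖ ^ 2 + ‖(U (s j)).2.2.1 - (U (s k)).2.2.1‖ ^ 2 +
          ‖(U (s j)).2.2.2 - (U (s k)).2.2.2‖ ^ 2) ∧
      ¬ IsCompact (closure (U '' Ici 0)) := by
  obtain ⟨Θ, h1, h2, hn, h3, h4⟩ := exists_theta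
  obtain ⟨W, hreg, hsm, hep⟩ := exists_world
  obtain ⟨hzs, hfc, hzper, hfper, _, _, _, _⟩ := zp_sol W hreg
  obtain ⟨Z, tk, hZ, ⟨C, hC⟩, htk, hsep⟩ := final_orbit W hreg hsm hep
  have henergy : ∀ j k, j ≠ k →
        1 ≤ ‖(Θ (Z (tk j))).2.1 - (Θ (Z (tk k))).2.1‖ ^ 2 +
          ‖(Θ (Z (tk j))).2.2.1 - (Θ (Z (tk k))).2.2.1‖ ^ 2 +
          ‖(Θ (Z (tk j))).2.2.2 - (Θ (Z (tk k))).2.2.2‖ ^ 2 := by
    intro j k hjk
    have e := hn (Z (tk j) - Z (tk k))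
    have hs := hsep j k hjk
    have e1 : vel (Z (tk j) - Z (tk k)) = (Θ (Z (tk j))).2.2.2 - (Θ (Z (tk k))).2.2.2 := by
      rw [← h2, map_sub]; rfl
    have e2 : (Θ (Z (tk j) - Z (tk k))).2.1 = (Θ (Z (tk j))).2.1 - (Θ (Z (tk k))).2.1 := by
      rw [map_sub]; rfl
    have e3 : (Θ (Z (tk j) - Z (tk k))).2.2.1 = (Θ (Z (tk j))).2.2.1 - (Θ (Z (tk k))).2.2.1 := by
      rw [map_sub]; rfl
    rw [e1, e2, e3] at e
    nlinarith
  refine ⟨W.f, hfc, fun t => ?_, ⟨fun t => Θ (W.zp t),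
    theta_solution Θ h1 h2 h3 h4 W.f hfc W.zp hzs, Θ.continuous.comp hzs.1, fun t => ?_⟩,
    fun t => Θ (Z t), theta_solution Θ h1 h2 h3 h4 W.f hfc Z hZ,
    ⟨‖Θ‖ * C, fun t ht => ?_⟩, ⟨tk, htk, tendsto_of_sep hZ.1 htk hsep, henergy⟩, ?_⟩
  · have := hfper t 1
    rw [Nat.cast_one, mul_one] at this
    exact this
  · have := hzper t 1
    rw [Nat.cast_one, mul_one] at this
    show Θ (W.zp (t + 2 * π)) = Θ (W.zp t)
    rw [this]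
  · exact (Θ.le_opNorm _).trans (mul_le_mul_of_nonneg_left (hC t ht) (norm_nonneg _))
  · intro hK
    obtain ⟨a, _, φ, hφ, hlim⟩ := hK.tendsto_subseq (x := fun n => Θ (Z (tk n)))
      (fun n => subset_closure ⟨tk n, htk n, rfl⟩)
    have hcau := hlim.cauchySeq
    rw [Metric.cauchySeq_iff] at hcau
    obtain ⟨N, hN⟩ := hcau (1 / 2) (by norm_num)
    have hd := hN N le_rfl (N + 1) (Nat.le_succ N)
    have hne : φ N ≠ φ (N + 1) := (hφ (Nat.lt_succ_self N)).ne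
    have hs := henergy _ _ hne
    rw [dist_eq_norm] at hd
    change ‖Θ (Z (tk (φ N))) - Θ (Z (tk (φ (N + 1))))‖ < 1 / 2 at hd
    set w := Θ (Z (tk (φ N))) - Θ (Z (tk (φ (N + 1)))) with hw
    have e1 : ‖w.2.1‖ ≤ ‖w‖ := (norm_fst_le _).trans (norm_snd_le _)
    have e2 : ‖w.2.2.1‖ ≤ ‖w‖ :=
      (norm_fst_le _).trans ((norm_snd_le _).trans (norm_snd_le _))
    have e3 : ‖w.2.2.2‖ ≤ ‖w‖ :=
      (norm_snd_le _).trans ((norm_snd_le _).trans (norm_snd_le _))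
    have hs' : 1 ≤ ‖w.2.1‖ ^ 2 + ‖w.2.2.1‖ ^ 2 + ‖w.2.2.2‖ ^ 2 := hs
    have e4 := norm_nonneg w.2.1
    have e5 := norm_nonneg w.2.2.1
    have e6 := norm_nonneg w.2.2.2
    nlinarith

end Pool.Agent.H74.HAR
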